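import Mathlib

set_option autoImplicit false

namespace Pool.Agent.Results.MP_4e92f2_gt.NotMinimal

open Set Filter Topology MeasureTheory

/-- The three points that are identified. -/
def A : Set EReal := {⊥, 0, ⊤}

/-- The equivalence relation collapsing `A`. -/
def S : Setoid EReal where
  r x y := x = y ∨ (x ∈ A ∧ y ∈ A)
  iseqv := ⟨fun _ => Or.inl rfl, fun h => h.imp Eq.symm And.symm, by
    rintro x y z (rfl | h) (rfl | h')
    exacts [Or.inl rfl, Or.inr h', Or.inr h, Or.inr ⟨h.1, h'.2⟩]⟩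

/-- The set `X₀`. -/
def X0 : Type := Quotient S

/-- The projection. -/
def q (x : EReal) : X0 := Quotient.mk S x

/-- The topology `τ`. -/
@[reducible] def tau : TopologicalSpace X0 where
  IsOpen U := IsOpen (q ⁻¹' U) ∧ (q 0 ∈ U → Dense (q ⁻¹' U))
  isOpen_univ := by simp
  isOpen_inter := fun U V hU hV => ⟨hU.1.inter hV.1, fun h =>
    (hU.2 h.1).inter_of_isOpen_left (hV.2 h.2) hU.1⟩
  isOpen_sUnion := fun T hT => ⟨by
    rw [preimage_sUnion]; exact isOpen_biUnion fun U hU => (hT U hU).1,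
    fun ⟨U, hU, h⟩ => ((hT U hU).2 h).mono (preimage_mono (subset_sUnion_of_mem hU))⟩

/-- Every convergent sequence has only one limit. -/
def US {X : Type} (t : TopologicalSpace X) : Prop :=
  ∀ (x : ℕ → X) (a b : X), Tendsto x atTop (@nhds X t a) → Tendsto x atTop (@nhds X t b) → a = b

@[reducible] def tau' : TopologicalSpace X0 where
  IsOpen U := IsOpen (q ⁻¹' U) ∧ (q 0 ∈ U → (q ⁻¹' U)ᶜ.Countable)
  isOpen_univ := by simp
  isOpen_inter := fun U V hU hV => ⟨hU.1.inter hV.1, fun h => by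
    rw [preimage_inter, compl_inter]; exact (hU.2 h.1).union (hV.2 h.2)⟩
  isOpen_sUnion := fun T hT => ⟨by
    rw [preimage_sUnion]; exact isOpen_biUnion fun U hU => (hT U hU).1,
    fun ⟨U, hU, h⟩ => ((hT U hU).2 h).mono
      (compl_subset_compl.2 (preimage_mono (subset_sUnion_of_mem hU)))⟩

theorem q_eq {x y : EReal} : q x = q y ↔ x = y ∨ (x ∈ A ∧ y ∈ A) := Quotient.eq

theorem q_surj (z : X0) : ∃ x, q x = z := Quotient.exists_rep z

theorem zero_mem : (0 : EReal) ∈ A := by simp [A]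

theorem finA : A.Finite := by simp [A]

theorem pre_image {K : Set EReal} (hK : K ⊆ Aᶜ) : q ⁻¹' (q '' K) = K := by
  ext x
  refine ⟨?_, fun h => ⟨x, h, rfl⟩⟩
  rintro ⟨y, hy, e⟩
  rcases q_eq.1 e with rfl | h
  · exact hy
  · exact (hK hy h.1).elim

theorem star_notMem {K : Set EReal} (hK : K ⊆ Aᶜ) : q 0 ∉ q '' K := fun h =>
  hK (show 0 ∈ K from pre_image hK ▸ h) zero_mem

theorem open_image {V : Set EReal} (hV : IsOpen V) (hA : V ⊆ Aᶜ) : IsOpen[tau'] (q '' V) :=
  ⟨by rwa [pre_image hA], fun h => (star_notMem hA h).elim⟩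

theorem aux (x : ℕ → X0) {b : EReal} (hb : b ∉ A) (h0 : Tendsto x atTop (@nhds X0 tau' (q 0)))
    (h1 : Tendsto x atTop (@nhds X0 tau' (q b))) : False := by
  letI := tau'
  have : ∀ n, ∃ y ∉ A, x n ∈ q '' Aᶜ → q y = x n := fun n => by
    by_cases h : x n ∈ q '' Aᶜ
    · obtain ⟨y, hy, e⟩ := h
      exact ⟨y, hy, fun _ => e⟩
    · exact ⟨b, hb, fun h' => (h h').elim⟩
  choose y hy hyx using this
  have hA : IsOpen Aᶜ := finA.isClosed.isOpen_compl
  have ht : Tendsto y atTop (𝓝 b) := by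
    rw [tendsto_nhds]
    intro V hV hbV
    filter_upwards [h1.eventually ((open_image (hV.inter hA) inter_subset_right).mem_nhds
      ⟨b, ⟨hbV, hb⟩, rfl⟩)] with n hn
    have : y n ∈ q ⁻¹' (q '' (V ∩ Aᶜ)) := by
      rw [mem_preimage, hyx n (image_mono inter_subset_right hn)]; exact hn
    rw [pre_image inter_subset_right] at this
    exact this.1
  have hK : insert b (range y) ⊆ Aᶜ := insert_subset hb (range_subset_iff.2 hy)
  have ho : IsOpen (q '' insert b (range y))ᶜ := ⟨by
    rw [preimage_compl, pre_image hK]; exact ht.isCompact_insert_range.isClosed.isOpen_compl,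
    fun _ => by
      rw [preimage_compl, compl_compl, pre_image hK]; exact (countable_range y).insert b⟩
  obtain ⟨n, hn, hn'⟩ := ((h0.eventually (ho.mem_nhds (star_notMem hK))).and
    (h1.eventually ((open_image hA Subset.rfl).mem_nhds ⟨b, hb, rfl⟩))).exists
  exact hn ⟨y n, Or.inr ⟨n, rfl⟩, hyx n hn'⟩

theorem result : ∃ t : TopologicalSpace X0, @T1Space X0 t ∧ US t ∧
    (∀ U, IsOpen[t] U → IsOpen[tau] U) ∧ t ≠ tau := by
  have hA : IsOpen Aᶜ := finA.isClosed.isOpen_compl
  refine ⟨tau', ?_, ?_, fun U hU => ⟨hU.1, fun h => ?_⟩, fun e => ?_⟩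
  · letI := tau'
    refine ⟨fun z => ⟨?_⟩⟩
    obtain ⟨x, rfl⟩ := q_surj z
    have hf : (q ⁻¹' {q x}).Finite := (finA.insert x).subset fun y hy =>
      (q_eq.1 hy).imp id And.left
    exact ⟨hf.isClosed.isOpen_compl, fun _ => by
      rw [preimage_compl, compl_compl]; exact hf.countable⟩
  · intro x a b ha hb
    obtain ⟨a, rfl⟩ := q_surj a
    obtain ⟨b, rfl⟩ := q_surj b
    by_cases haA : a ∈ A
    · by_cases hbA : b ∈ A
      · exact q_eq.2 (Or.inr ⟨haA, hbA⟩)
      · rw [q_eq.2 (Or.inr ⟨haA, zero_mem⟩)] at ha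
        exact (aux x hbA ha hb).elim
    · by_cases hbA : b ∈ A
      · rw [q_eq.2 (Or.inr ⟨hbA, zero_mem⟩)] at hb
        exact (aux x haA hb ha).elim
      · by_contra hne
        obtain ⟨U, V, hU, hV, haU, hbV, hd⟩ := t2_separation (fun h : a = b => hne (h ▸ rfl))
        letI := tau'
        obtain ⟨n, ⟨y, hy, e⟩, hn⟩ := ((ha.eventually ((open_image (hU.inter hA)
          inter_subset_right).mem_nhds ⟨a, ⟨haU, haA⟩, rfl⟩)).and (hb.eventually ((open_image
          (hV.inter hA) inter_subset_right).mem_nhds ⟨b, ⟨hbV, hbA⟩, rfl⟩))).exists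
        have : y ∈ q ⁻¹' (q '' (V ∩ Aᶜ)) := by rw [mem_preimage, e]; exact hn
        rw [pre_image inter_subset_right] at this
        exact disjoint_left.1 hd hy.1 this.1
  · have h1 := (hU.2 h).preimage_of_injOn (f := ((↑) : ℝ → EReal)) EReal.coe_injective.injOn
    have h2 := h1.dense_compl ℝ
    have h3 : DenseRange ((↑) : ℝ → EReal) := EReal.denseRange_ratCast.mono (by
      rintro _ ⟨r, rfl⟩; exact ⟨r, rfl⟩)
    refine h3.dense_of_mapsTo continuous_coe_real_ereal h2 fun r hr => ?_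
    simpa using hr
  · obtain ⟨W, hQ, hW, hlt⟩ := Set.exists_isOpen_lt_of_lt (μ := volume)
      (range ((↑) : ℚ → ℝ)) 1 (by rw [(countable_range _).measure_zero]; exact one_pos)
    have hc : IsCompact (Icc (1 : ℝ) 2 \ W) := isCompact_Icc.diff hW
    have hK : ((↑) : ℝ → EReal) '' (Icc (1 : ℝ) 2 \ W) ⊆ Aᶜ := by
      rintro _ ⟨r, hr, rfl⟩ (h | h | h)
      · simp at h
      · have : r = 0 := by exact_mod_cast h
        linarith [hr.1.1]
      · simp at h
    have ho : IsOpen[tau] (q '' (((↑) : ℝ → EReal) '' (Icc (1 : ℝ) 2 \ W)))ᶜ := by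
      refine ⟨?_, fun _ => ?_⟩ <;> rw [preimage_compl, pre_image hK]
      · exact (hc.image continuous_coe_real_ereal).isClosed.isOpen_compl
      · refine EReal.denseRange_ratCast.mono ?_
        rintro _ ⟨r, rfl⟩ ⟨s, hs, e⟩
        have : s = r := EReal.coe_injective e
        exact hs.2 (hQ ⟨r, this.symm⟩)
    rw [← e] at ho
    have h1 := ho.2 (star_notMem hK)
    rw [preimage_compl, compl_compl, pre_image hK] at h1
    have h2 := (countable_of_injective_of_countable_image EReal.coe_injective.injOn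
      h1).measure_zero volume
    have h3 : volume (Icc (1 : ℝ) 2) ≤ volume (Icc (1 : ℝ) 2 \ W) + volume W :=
      (measure_mono (by rw [diff_union_self]; exact subset_union_left)).trans (measure_union_le _ _)
    rw [h2, zero_add, Real.volume_Icc] at h3
    norm_num at h3
    exact absurd hlt (not_lt.2 h3)

end Pool.Agent.Results.MP_4e92f2_gt.NotMinimal
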